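import Pool.Agent.Y320.CM.Stm

/-!
# CM-LIM and CM-SEP
-/

set_option autoImplicit false
open Filter Topology

namespace Pool.Agent.Y781.CM

open Pool.Agent.Y320.CM

theorem cr_ne {a b c e : Sph} (h : cr a b c e ≠ 0) :
    dist a b ≠ 0 ∧ dist c e ≠ 0 ∧ dist a c ≠ 0 ∧ dist b e ≠ 0 := by
  unfold cr at h
  refine ⟨?_, ?_, ?_, ?_⟩ <;> intro h' <;> apply h <;> rw [h'] <;> simp

/-- (LIM) from (NORM) -/
theorem lim (hN : S_NORM) : S_LIM := by
  intro Y ι 𝓤 f c a1 a2 a3 a4 hD h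
  obtain ⟨h12, h13, h14, h23, h24, h34⟩ := hD
  have hev : ∀ a b e k, D4 a b e k → ∀ᶠ i in (𝓤 : Filter ι), cr (f i a) (f i b) (f i e) (f i k) ≠ 0 := by
    intro a b e k hk
    obtain ⟨h1, h2⟩ := h a b e k hk
    exact h2.eventually_ne h1.ne'
  have hΦ : ∀ i, ∃ Φ : Sph → Sph, (∀ a b c e, cr (Φ a) (Φ b) (Φ c) (Φ e) = cr a b c e) ∧
      (f i a1 ≠ f i a2 → f i a1 ≠ f i a3 → f i a2 ≠ f i a3 →
        dist (Φ (f i a1)) (Φ (f i a2)) = √3 ∧ dist (Φ (f i a1)) (Φ (f i a3)) = √3 ∧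
        dist (Φ (f i a2)) (Φ (f i a3)) = √3) := by
    intro i
    by_cases hi : f i a1 ≠ f i a2 ∧ f i a1 ≠ f i a3 ∧ f i a2 ≠ f i a3
    · obtain ⟨Φ, h1, h2⟩ := hN _ _ _ hi.1 hi.2.1 hi.2.2
      exact ⟨Φ, h1, fun _ _ _ => h2⟩
    · exact ⟨id, fun _ _ _ _ => rfl, fun h1 h2 h3 => absurd ⟨h1, h2, h3⟩ hi⟩
  choose Φ hΦ1 hΦ2 using hΦ
  have hlim : ∀ a : Y, ∃ p : Sph, Tendsto (fun i => Φ i (f i a)) (𝓤 : Filter ι) (𝓝 p) := by
    intro a
    refine ⟨(𝓤.map (fun i => Φ i (f i a))).lim, ?_⟩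
    have := (𝓤.map (fun i => Φ i (f i a))).le_nhds_lim
    rw [Ultrafilter.coe_map] at this
    exact this
  choose F hF using hlim
  have h3 : (0 : ℝ) < √3 := by positivity
  -- the three distances
  have hd : dist (F a1) (F a2) = √3 ∧ dist (F a1) (F a3) = √3 ∧ dist (F a2) (F a3) = √3 := by
    have e1 := hev a1 a2 a3 a4 ⟨h12, h13, h14, h23, h24, h34⟩
    have e2 := hev a2 a3 a1 a4 ⟨h23, h12.symm, h24, h13.symm, h34, h14⟩
    have e3 : ∀ᶠ i in (𝓤 : Filter ι), dist (Φ i (f i a1)) (Φ i (f i a2)) = √3 ∧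
        dist (Φ i (f i a1)) (Φ i (f i a3)) = √3 ∧ dist (Φ i (f i a2)) (Φ i (f i a3)) = √3 := by
      filter_upwards [e1, e2] with i h1 h2
      have k1 := cr_ne h1
      have k2 := cr_ne h2
      exact hΦ2 i (dist_ne_zero.1 k1.1) (dist_ne_zero.1 k1.2.2.1) (dist_ne_zero.1 k2.1)
    refine ⟨?_, ?_, ?_⟩
    · refine tendsto_nhds_unique ((hF a1).dist (hF a2)) (tendsto_const_nhds.congr' ?_)
      filter_upwards [e3] with i hi using hi.1.symm
    · refine tendsto_nhds_unique ((hF a1).dist (hF a3)) (tendsto_const_nhds.congr' ?_)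
      filter_upwards [e3] with i hi using hi.2.1.symm
    · refine tendsto_nhds_unique ((hF a2).dist (hF a3)) (tendsto_const_nhds.congr' ?_)
      filter_upwards [e3] with i hi using hi.2.2.symm
  -- the relation
  have hrel : ∀ a b e k, D4 a b e k → dist (F a) (F b) * dist (F e) (F k) =
      c a b e k * (dist (F a) (F e) * dist (F b) (F k)) := by
    intro a b e k hk
    have h1 := hev a b e k hk
    have h2 := ((hF a).dist (hF b)).mul ((hF e).dist (hF k))
    have h4 := (h a b e k hk).2.mul (((hF a).dist (hF e)).mul ((hF b).dist (hF k)))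
    refine tendsto_nhds_unique h2 (h4.congr' ?_)
    filter_upwards [h1] with i hi
    have h5 := hΦ1 i (f i a) (f i b) (f i e) (f i k)
    rw [← h5] at hi ⊢
    obtain ⟨_, _, k3, k4⟩ := cr_ne hi
    unfold cr
    field_simp
  have hinj : Function.Injective F := by
    intro a b hab
    by_contra hne
    have key : ∀ p q : Y, F p ≠ F q → F p ≠ F a → F q ≠ F a → False := by
      intro p q hpq hpa hqa
      have hpb : F p ≠ F b := by rw [← hab]; exact hpa
      have hqb : F q ≠ F b := by rw [← hab]; exact hqa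
      have hk : D4 a b p q := ⟨hne, fun h' => hpa (by rw [h']), fun h' => hqa (by rw [h']),
        fun h' => hpb (by rw [h']), fun h' => hqb (by rw [h']), fun h' => hpq (by rw [h'])⟩
      have h1 := hrel a b p q hk
      have h2 := (h a b p q hk).1
      rw [hab, dist_self, zero_mul] at h1
      have h4 : 0 < dist (F b) (F p) := dist_pos.2 (Ne.symm hpb)
      have h5 : 0 < dist (F b) (F q) := dist_pos.2 (Ne.symm hqb)
      have h6 : 0 < c a b p q * (dist (F b) (F p) * dist (F b) (F q)) := by positivity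
      linarith
    have n12 : F a1 ≠ F a2 := dist_pos.1 (by rw [hd.1]; exact h3)
    have n13 : F a1 ≠ F a3 := dist_pos.1 (by rw [hd.2.1]; exact h3)
    have n23 : F a2 ≠ F a3 := dist_pos.1 (by rw [hd.2.2]; exact h3)
    by_cases q1 : F a1 = F a
    · exact key a2 a3 n23 (by rw [← q1]; exact n12.symm) (by rw [← q1]; exact n13.symm)
    · by_cases q2 : F a2 = F a
      · exact key a1 a3 n13 q1 (by rw [← q2]; exact n23.symm)
      · exact key a1 a2 n12 q1 q2
  refine ⟨F, hinj, fun a b e k hk => ?_⟩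
  have h1 := hrel a b e k hk
  have h2 : dist (F a) (F e) ≠ 0 := dist_ne_zero.2 (hinj.ne hk.2.1)
  have h4 : dist (F b) (F k) ≠ 0 := dist_ne_zero.2 (hinj.ne hk.2.2.2.2.1)
  unfold cr
  rw [h1]
  field_simp

theorem inf : Infinite Sph := by
  have h1 : 1 < Module.rank ℝ (EuclideanSpace ℝ (Fin 3)) := by
    rw [← Module.finrank_eq_rank, finrank_euclideanSpace_fin]
    norm_num
  have h2 := isPreconnected_sphere h1 (0 : EuclideanSpace ℝ (Fin 3)) 1
  apply Set.infinite_coe_iff.2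
  apply h2.infinite_of_nontrivial
  refine ⟨EuclideanSpace.single 0 1, by simp, -EuclideanSpace.single 0 1, by simp, ?_⟩
  intro h
  have := congrArg (fun v : EuclideanSpace ℝ (Fin 3) => v 0) h
  simp at this
  norm_num at this

theorem ex4 (x y : Sph) (h : x ≠ y) : ∃ c1 c2 : Sph, D4 x y c1 c2 := by
  classical
  have := inf
  obtain ⟨c1, h1⟩ := Infinite.exists_notMem_finset ({x, y} : Finset Sph)
  obtain ⟨c2, h2⟩ := Infinite.exists_notMem_finset ({x, y, c1} : Finset Sph)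
  simp only [Finset.mem_insert, Finset.mem_singleton, not_or] at h1 h2
  exact ⟨c1, c2, h, Ne.symm h1.1, Ne.symm h2.1, Ne.symm h1.2, Ne.symm h2.2.1, Ne.symm h2.2.2⟩

/-- (SEP) -/
theorem sep : S_SEP := by
  intro F hinj H
  have step1 : ∀ x0 c1 : Sph, x0 ≠ c1 → ∃ k : ℝ, 0 < k ∧ ∀ᶠ x in 𝓝 x0, k ≤ dist (F x) (F c1) := by
    intro x0 c1 hne
    obtain ⟨c2, c3, hD⟩ := ex4 x0 c1 hne
    obtain ⟨R, hR, hev⟩ := H x0 c1 c2 c3 hD
    obtain ⟨_, _, _, n12, n13, n23⟩ := hD
    have hct : ContinuousAt (fun x : Sph => (x, c1, c2, c3)) x0 := by fun_prop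
    have hev' := hct.eventually hev
    have D12 : 0 < dist (F c1) (F c2) := dist_pos.2 (hinj.ne n12)
    have D13 : 0 < dist (F c1) (F c3) := dist_pos.2 (hinj.ne n13)
    have D23 : 0 < dist (F c2) (F c3) := dist_pos.2 (hinj.ne n23)
    refine ⟨min (dist (F c1) (F c2) / 2)
      (R⁻¹ * (dist (F c1) (F c2) / 2) * dist (F c1) (F c3) / dist (F c2) (F c3)), by positivity, ?_⟩
    filter_upwards [hev'] with x hx
    have hx1 := hx.1
    have hne0 : cr (F x) (F c1) (F c2) (F c3) ≠ 0 := by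
      have : 0 < R⁻¹ := by positivity
      linarith
    have hB : 0 < dist (F x) (F c2) := lt_of_le_of_ne dist_nonneg (Ne.symm (cr_ne hne0).2.2.1)
    have htri : dist (F c1) (F c2) ≤ dist (F x) (F c1) + dist (F x) (F c2) := by
      have := dist_triangle (F c1) (F x) (F c2)
      rw [dist_comm (F c1) (F x)] at this
      exact this
    unfold cr at hx1
    rw [le_div_iff₀ (by positivity)] at hx1
    rcases le_or_gt (dist (F c1) (F c2) / 2) (dist (F x) (F c1)) with hA | hA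
    · exact (min_le_left _ _).trans hA
    · refine (min_le_right _ _).trans ?_
      rw [div_le_iff₀ D23]
      refine le_trans ?_ hx1
      have : dist (F c1) (F c2) / 2 ≤ dist (F x) (F c2) := by linarith
      have hRi : 0 < R⁻¹ := by positivity
      calc R⁻¹ * (dist (F c1) (F c2) / 2) * dist (F c1) (F c3)
          ≤ R⁻¹ * dist (F x) (F c2) * dist (F c1) (F c3) := by gcongr
        _ = _ := by ring
  intro x y hxy
  obtain ⟨c1, c2, hD⟩ := ex4 x y hxy
  obtain ⟨R, hR, hev⟩ := H x y c1 c2 hD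
  obtain ⟨_, n1, _, _, n2, n12⟩ := hD
  obtain ⟨k1, hk1, e1⟩ := step1 x c1 n1
  obtain ⟨k2, hk2, e2⟩ := step1 y c2 n2
  have hct : ContinuousAt (fun q : Sph × Sph => (q.1, q.2, c1, c2)) (x, y) := by fun_prop
  have hev' := hct.eventually hev
  have D12 : 0 < dist (F c1) (F c2) := dist_pos.2 (hinj.ne n12)
  refine ⟨R⁻¹ * (k1 * k2) / dist (F c1) (F c2), by positivity, ?_⟩
  have e1' : ∀ᶠ q : Sph × Sph in 𝓝 (x, y), k1 ≤ dist (F q.1) (F c1) :=
    (continuousAt_fst (p := (x, y))).eventually e1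
  have e2' : ∀ᶠ q : Sph × Sph in 𝓝 (x, y), k2 ≤ dist (F q.2) (F c2) :=
    (continuousAt_snd (p := (x, y))).eventually e2
  filter_upwards [hev', e1', e2'] with q hq h1 h2
  have hq1 := hq.1
  unfold cr at hq1
  have p1 : 0 < dist (F q.1) (F c1) := hk1.trans_le h1
  have p2 : 0 < dist (F q.2) (F c2) := hk2.trans_le h2
  rw [le_div_iff₀ (by positivity)] at hq1
  rw [div_le_iff₀ D12]
  refine le_trans ?_ hq1
  have hRi : 0 < R⁻¹ := by positivity
  gcongr

end Pool.Agent.Y781.CM
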